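import Pool.Agent.H27.TOP.Tps
import Pool.Agent.H2.GEN.AttG
import Pool.Agent.H99.GEN.GrC

/-!
# The thresholds of the chains without the target

`clo_lab`: if the thresholds of the first coordinates of a chain are at most `σ` and the threshold
of the next coordinate is above `σ`, this coordinate has closed labels of precision above `σ`.
`t1n`: if no coordinate `l ≠ k` has a closed label of precision above `σ` over the other
coordinates without `k`, then the thresholds of all the chains which avoid `k` are at most `σ`.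
-/

set_option autoImplicit false

namespace Pool.TOP

open Finset Real MvPolynomial
open Pool.Agent.H49.Ent Pool.Agent.H32.Dense Pool.STK Pool.KA Pool.KSAT Pool.K2S Pool.PB Pool.S6C
open Pool.GEN
open Pool.GRD (LbP)
open Pool.LBT (ThrOf)
open Pool.CHT (chsys bet TmH big bas_ev no_unif cht_chN lipE ch_slope')

variable {m : ℕ} {S : PCl m} {θ : ℝ} {P : List (Fin m) × Fin m → ℝ → ℝ → ℝ}

/-- The number of digits. -/
theorem dig_ex (l : ℕ) {C₁ s : ℝ} (hC : 1 ≤ C₁) (hs : 0 < s) : ∃ (ε : ℝ) (J₀ : ℕ), 0 < ε ∧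
    ∀ J : ℕ, J₀ ≤ J → ∃ u : ℕ, Real.exp (C₁ * (ε * J + 1)) ≤ 2 ^ u ∧
      C₁ * (ε * J + 1) ≤ s * J ∧ (((l + 1) * u + 1 : ℕ) : ℝ) ≤ s * J := by
  have hL : 0 < Real.log 2 := Real.log_pos (by norm_num)
  have hL1 : Real.log 2 ≤ 1 := by
    have := Real.log_two_lt_d9
    linarith
  have hC0 : 0 < C₁ := by linarith
  have hl0 : (0 : ℝ) ≤ l := Nat.cast_nonneg l
  obtain ⟨ε, hε⟩ : ∃ ε : ℝ, ε = s * Real.log 2 / (2 * C₁ * (l + 2)) := ⟨_, rfl⟩
  have hε0 : 0 < ε := by rw [hε]; positivity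
  obtain ⟨J₀, hJ₀⟩ := big ((l + 2) * (C₁ / Real.log 2 + 1)) (show 0 < s / 2 by positivity)
  refine ⟨ε, J₀, hε0, fun J hJ => ?_⟩
  have hJ0 : (0 : ℝ) ≤ J := Nat.cast_nonneg J
  have h1 := hJ₀ J hJ
  obtain ⟨X, hX⟩ : ∃ X : ℝ, X = C₁ * (ε * J + 1) / Real.log 2 := ⟨_, rfl⟩
  have hX0 : 0 ≤ X := by rw [hX]; positivity
  have hXL : X * Real.log 2 = C₁ * (ε * J + 1) := by
    rw [hX]
    field_simp
  have hXe : (l + 2) * (X + 1) = s / 2 * J + (l + 2) * (C₁ / Real.log 2 + 1) := by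
    rw [hX, hε]
    field_simp
    ring
  have hXs : (l + 2) * (X + 1) ≤ s * J := by linarith
  obtain ⟨u, hu⟩ : ∃ u : ℕ, u = ⌈X⌉₊ := ⟨_, rfl⟩
  have hu1 : X ≤ u := by rw [hu]; exact Nat.le_ceil X
  have hu2 : (u : ℝ) ≤ X + 1 := by rw [hu]; exact (Nat.ceil_lt_add_one hX0).le
  refine ⟨u, ?_, ?_, ?_⟩
  · have h7 : (2 : ℝ) ^ u = Real.exp (u * Real.log 2) := by
      rw [mul_comm, Real.exp_mul, Real.exp_log (by norm_num)]
      simp
    rw [h7, ← hXL]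
    exact Real.exp_le_exp.2 (mul_le_mul_of_nonneg_right hu1 hL.le)
  · rw [← hXL]
    have h2 : X * Real.log 2 ≤ X * 1 := mul_le_mul_of_nonneg_left hL1 hX0
    nlinarith
  · push_cast
    have h3 : ((l : ℝ) + 1) * u ≤ (l + 1) * (X + 1) := mul_le_mul_of_nonneg_left hu2 (by linarith)
    nlinarith

/-- **Closed labels** of the first coordinate of a chain whose threshold is above `σ`. -/
theorem clo_lab (hP : ThrOf (chsys m θ) S P) (hθ : 0 < θ) (hS : TmH S) {c : ℕ → Fin m} {l : ℕ}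
    (hc : Set.InjOn c (Set.Iio (l + 1))) {α σ : ℝ} (hα : α ≤ 1) (hσ : 0 ≤ σ) (hσθ : σ + θ < 1)
    (hj : ∀ j < l, ∀ a w : ℝ, 0 < w → w ≤ a → a < α → bet P c j a w ≤ σ)
    {a w : ℝ} (hw : 0 < w) (hwa : w ≤ a) (ha : a < α) (hl : σ < bet P c l a w) :
    ∃ (ε : ℝ) (K : ℕ), 0 < ε ∧ Bas S (fun J F A => ∃ (B : F.Ω → Prop) (a₁ P₁ : ℕ), Sub B A ∧
      Pe F.p A ≤ K * Pe F.p B ∧ a₁ ≤ ⌊a * J⌋₊ ∧ (σ + ε) * J ≤ P₁ ∧
      ∃ (V : Type) (z : PtT F → V) (z' : LnT F → V) (G : V → MvPolynomial (Option (Fin m)) ℝ),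
        LbP F ((range l).image c) (c l) K J a₁ P₁ B z z' G) := by
  have ha1 : a < 1 := ha.trans_le hα
  have hw1 : w < 1 := hwa.trans_lt ha1
  have ha0 : 0 < a := hw.trans_le hwa
  -- the numbers
  obtain ⟨ρ, hρ1, hρ2, hρ3⟩ : ∃ ρ : ℝ, σ < ρ ∧ ρ < bet P c l a w ∧ ρ + θ < 1 := by
    have h1 : σ < min (bet P c l a w) (1 - θ) := lt_min hl (by linarith)
    obtain ⟨ρ, h2, h3⟩ := exists_between h1
    have h4 := h3.trans_le (min_le_left _ _)
    have h5 := h3.trans_le (min_le_right _ _)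
    exact ⟨ρ, h2, h4, by linarith⟩
  obtain ⟨δ, hδ0, hδ1, hδ2, hδ3⟩ : ∃ δ : ℝ, 0 < δ ∧ σ + 4 * δ ≤ ρ ∧ ρ + θ + 4 * δ ≤ 1 ∧
      4 * δ ≤ (1 - w) * Real.log 2 := by
    have hL : 0 < Real.log 2 := Real.log_pos (by norm_num)
    have h0 : 0 < min (ρ - σ) (min (1 - θ - ρ) ((1 - w) * Real.log 2)) :=
      lt_min (by linarith) (lt_min (by linarith) (mul_pos (by linarith) hL))
    have h1 := min_le_left (ρ - σ) (min (1 - θ - ρ) ((1 - w) * Real.log 2))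
    have h2 := min_le_right (ρ - σ) (min (1 - θ - ρ) ((1 - w) * Real.log 2))
    have h3 := h2.trans (min_le_left _ _)
    have h4 := h2.trans (min_le_right _ _)
    exact ⟨min (ρ - σ) (min (1 - θ - ρ) ((1 - w) * Real.log 2)) / 4, by linarith, by linarith,
      by linarith, by linarith⟩
  have hρ0 : 0 < ρ := by linarith
  -- the labels of the threshold
  have hatt : ∃ K : ℕ, Bas S (fun J F A => (chsys m θ).T ((List.range l).map c, c l) K ⌊a * J⌋₊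
      ⌊w * J⌋₊ ⌊ρ * J⌋₊ J F A) := by
    have h1 := hP.att ((List.range l).map c, c l) a w (bet P c l a w - ρ) hw hwa ha1.le
      (by linarith) (by
        show bet P c l a w - ρ < bet P c l a w
        linarith)
    have e1 : P ((List.range l).map c, c l) a w - (bet P c l a w - ρ) = ρ := by
      show bet P c l a w - (bet P c l a w - ρ) = ρ
      ring
    rw [e1] at h1
    exact h1
  obtain ⟨K, hK⟩ := hatt
  obtain ⟨K₁, hK₁⟩ : ∃ K₁, K₁ = max K 1 := ⟨_, rfl⟩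
  obtain ⟨C₁, c₀, hC₁, hslope⟩ := ch_slope' m (l + 1) (fun _ => K₁) (fun _ => by
    rw [hK₁]; exact le_max_right _ _)
  obtain ⟨c', hc', hclo⟩ := Pool.GRD.clo1 (l + 1) K₁
  obtain ⟨ε, J₁, hε0, hdig⟩ := dig_ex l hC₁ hδ0
  -- the rational point
  obtain ⟨p, hp1, hp2⟩ := exists_rat_btwn ha
  obtain ⟨q, hq1, hq2⟩ := exists_rat_btwn (show w < (p : ℝ) by linarith)
  have hq0 : (0 : ℝ) < q := hw.trans hq1
  have hp1' : (p : ℝ) ≤ 1 := hp2.le.trans hα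
  have hbj : ∀ j < l, bet P c j p q ≤ σ := fun j hj' => hj j hj' p q hq0 hq2.le hp2
  have hside := Bas.all (S := S) l (Φ := fun j J F A => ∀ (a₀ w₀ e₀ : ℕ) (g : ℕ → ℕ),
      w₀ ≤ a₀ → a₀ ≤ ⌊(p : ℝ) * J⌋₊ → w₀ ≤ ⌊(q : ℝ) * J⌋₊ → e₀ ≤ ⌊θ * w * J⌋₊ →
      (∀ l' ≤ j, g l' ≤ J) → ⌊(bet P c j p q + δ) * J⌋₊ + a₀ ≤ g j + ⌊(p : ℝ) * J⌋₊ →
      ¬ ChN F c (j + 1) (fun _ => K) a₀ w₀ e₀ g A) fun j hj' =>
    no_unif hP c j (fun _ => K) p q (θ * w) δ (by exact_mod_cast hq0.le)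
      (by exact_mod_cast hq2.le) (by exact_mod_cast hp1') (mul_lt_mul_of_pos_left hq1 hθ) hδ0
      (by have := hbj j hj'; linarith)
  have hpos : Bas S (fun _ F A => 0 < Pe F.p A) := ⟨1, one_pos, 0, fun J _ F A hA =>
    hS.1 1 J F A hA⟩
  obtain ⟨J₂, hJ₂⟩ := big ((c₀ : ℝ) + c' + 2) hδ0
  refine ⟨δ, max c' (2 * c'), hδ0, ?_⟩
  refine Bas.mono (max J₁ J₂) (((hK.and hside).and (hS.2 ε hε0)).and hpos) ?_
  rintro J hJ F A ⟨⟨⟨hT, hsd⟩, htm⟩, hA⟩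
  have hJ0 : (0 : ℝ) ≤ J := Nat.cast_nonneg J
  obtain ⟨u, hu1, hu2, hu3⟩ := hdig J ((le_max_left _ _).trans hJ)
  have b2 := hJ₂ J ((le_max_right _ _).trans hJ)
  obtain ⟨a₀, w₀, g, k1, k2, k3, k4, k5, k6⟩ := cht_chN hT
  have ewJ : ⌊w * J⌋₊ ≤ J := Pool.LBT.fl_le' hw1.le J
  have eaJ : ⌊a * J⌋₊ ≤ J := Pool.LBT.fl_le' ha1.le J
  have elip : lipE θ K ⌊w * J⌋₊ J ≤ ⌊θ * w * J⌋₊ := by
    unfold lipE
    refine Nat.floor_le_floor ?_
    rw [abs_of_pos hθ]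
    have h3 : (⌊w * J⌋₊ : ℝ) ≤ w * J := Nat.floor_le (by positivity)
    have h4 : 0 ≤ (J : ℝ) / (K + 1) := by positivity
    have h5 : θ * ⌊w * J⌋₊ ≤ θ * (w * J) := mul_le_mul_of_nonneg_left h3 hθ.le
    linarith
  have elr : (lipE θ K ⌊w * J⌋₊ J : ℝ) ≤ θ * J := by
    have h3 : (lipE θ K ⌊w * J⌋₊ J : ℝ) ≤ θ * w * J :=
      (Nat.cast_le.2 elip).trans (Nat.floor_le (by positivity))
    have h4 : θ * w * J ≤ θ * 1 * J :=
      mul_le_mul_of_nonneg_right (mul_le_mul_of_nonneg_left hw1.le hθ.le) hJ0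
    linarith
  have epJ : ⌊a * J⌋₊ ≤ ⌊(p : ℝ) * J⌋₊ :=
    Nat.floor_le_floor (mul_le_mul_of_nonneg_right hp1.le hJ0)
  have eqJ : ⌊w * J⌋₊ ≤ ⌊(q : ℝ) * J⌋₊ :=
    Nat.floor_le_floor (mul_le_mul_of_nonneg_right hq1.le hJ0)
  have hg : ∀ j < l, ((g j + ⌊a * J⌋₊ : ℕ) : ℝ) ≤ (σ + δ) * J + a₀ := by
    intro j hj'
    have h1 : ¬ (⌊(bet P c j p q + δ) * J⌋₊ + a₀ ≤ g j + ⌊(p : ℝ) * J⌋₊) := fun h =>
      hsd j hj' a₀ w₀ (lipE θ K ⌊w * J⌋₊ J) g k1 (k2.trans epJ) (k3.trans eqJ) elip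
        (fun l' hl' => k5 l' (by omega)) h
        (k6.mono (by omega) (fun _ _ => le_rfl) le_rfl le_rfl (k3.trans ewJ) le_rfl)
    push Not at h1
    have h2 : ((g j + ⌊a * J⌋₊ : ℕ) : ℝ) ≤ ((⌊(bet P c j p q + δ) * J⌋₊ + a₀ : ℕ) : ℝ) := by
      have : g j + ⌊a * J⌋₊ ≤ ⌊(bet P c j p q + δ) * J⌋₊ + a₀ := by omega
      exact_mod_cast this
    have h3 : 0 ≤ bet P c j p q := by
      have h4 : (p : ℝ) ≤ bet P c j p q :=
        hP.low ((List.range j).map c, c j) p q hq0.le hq2.le hp1'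
      linarith
    have h5 := Nat.floor_le (show 0 ≤ (bet P c j p q + δ) * (J : ℝ) by positivity)
    have h6 : (bet P c j p q + δ) * (J : ℝ) ≤ (σ + δ) * J :=
      mul_le_mul_of_nonneg_right (by have := hbj j hj'; linarith) hJ0
    push_cast at h2 ⊢
    linarith
  -- the final step
  have hρJ := Nat.lt_floor_add_one (ρ * (J : ℝ))
  have hρJ' := Nat.floor_le (show 0 ≤ ρ * (J : ℝ) by positivity)
  have fin : ∀ (B : F.Ω → Prop) (a₁ e' : ℕ) (g' : ℕ → ℕ)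
      (G : PtT F → ℕ → MvPolynomial (Option (Fin m)) ℝ)
      (H : LnT F → ℕ → MvPolynomial (Option (Fin m)) ℝ), Sub B A → Pe F.p A ≤ 2 * Pe F.p B →
      w₀ ≤ a₁ → a₁ ≤ ⌊a * J⌋₊ → ⌊ρ * J⌋₊ ≤ g' l + ((l + 1) * u + 1) →
      ChOK F c (l + 1) (fun _ => K₁) a₁ w₀ e' g' B G H →
      ∃ (B : F.Ω → Prop) (a₁ P₁ : ℕ), Sub B A ∧
        Pe F.p A ≤ (max c' (2 * c') : ℕ) * Pe F.p B ∧ a₁ ≤ ⌊a * J⌋₊ ∧ (σ + δ) * J ≤ P₁ ∧
        ∃ (V : Type) (z : PtT F → V) (z' : LnT F → V)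
          (G : V → MvPolynomial (Option (Fin m)) ℝ),
          LbP F ((range l).image c) (c l) (max c' (2 * c')) J a₁ P₁ B z z' G := by
    intro B a₁ e' g' G H h1 h2 h3 h4 h5 h6
    obtain ⟨z, z', Pv, B', h7, h8, -, -, -, -, h9⟩ := hclo m J F c (fun _ => K₁) a₁ w₀ e' g' B G H
      h3 (h4.trans eaJ) (fun x hx y hy hxy => hc (by simpa using hx) (by simpa using hy) hxy)
      (fun _ _ => le_rfl) h6
    have h10 : ((⌊ρ * J⌋₊ : ℕ) : ℝ) ≤ ((g' l + ((l + 1) * u + 1) : ℕ) : ℝ) := by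
      exact_mod_cast h5
    have h11 : (σ + δ) * J + c' ≤ g' l := by
      rw [Nat.cast_add] at h10
      have h12 : (σ + 4 * δ) * J ≤ ρ * J := mul_le_mul_of_nonneg_right hδ1 hJ0
      have h13 : (0 : ℝ) ≤ c₀ := Nat.cast_nonneg c₀
      nlinarith
    have h12 : c' ≤ g' l := by
      have h13 : (0 : ℝ) ≤ (σ + δ) * J := by positivity
      have h14 : (c' : ℝ) ≤ g' l := by linarith
      exact_mod_cast h14
    refine ⟨B', a₁, g' l - c', fun ω hω => h1 ω (h7 ω hω), ?_, h4, ?_, _, z, z', _,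
      (h9 l (Nat.lt_succ_self l) h12).mono (Subset.refl _) (le_max_left _ _) le_rfl⟩
    · have h13 : ((2 * c' : ℕ) : ℝ) ≤ (max c' (2 * c') : ℕ) := by
        exact_mod_cast le_max_right c' (2 * c')
      calc Pe F.p A ≤ 2 * Pe F.p B := h2
        _ ≤ 2 * (c' * Pe F.p B') := mul_le_mul_of_nonneg_left h8 (by norm_num)
        _ = ((2 * c' : ℕ) : ℝ) * Pe F.p B' := by push_cast; ring
        _ ≤ _ := mul_le_mul_of_nonneg_right h13 (Pe_nonneg F.isLaw B')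
    · rw [Nat.cast_sub h12]
      linarith
  obtain ⟨v, hv⟩ : ∃ v, v = min (⌊a * J⌋₊ - a₀) (⌊ρ * J⌋₊ - g l) := ⟨_, rfl⟩
  have hv1 : a₀ + v ≤ ⌊a * J⌋₊ := by omega
  have hv2 : ⌊ρ * J⌋₊ ≤ g l + v := by omega
  have hv3 : v ≤ ⌊ρ * J⌋₊ - g l := by omega
  obtain ⟨G, H, h6⟩ := k6.mono (K' := fun _ => K₁) le_rfl
    (fun _ _ => by rw [hK₁]; exact le_max_left _ _) le_rfl le_rfl (k3.trans ewJ) le_rfl
  rcases Nat.lt_or_ge v ((l + 1) * u + 1) with hvu | hvu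
  · refine fin A a₀ _ g G H (fun _ h => h) ?_ k1 k2 (by omega) h6
    linarith
  · obtain ⟨B, l1, l2, l3, -⟩ := hslope J F c a₀ w₀ (lipE θ K ⌊w * J⌋₊ J) v u g A G H (ε * J) hA hc
      k1 (k3.trans ewJ) (fun j hj' => by
        have hvR : ((a₀ + v : ℕ) : ℝ) ≤ ⌊a * J⌋₊ := by exact_mod_cast hv1
        have h8 : (0 : ℝ) ≤ c' := Nat.cast_nonneg c'
        have h9 : (ρ + θ + 4 * δ) * J ≤ 1 * J := mul_le_mul_of_nonneg_right hδ2 hJ0
        have h10 : (σ + 4 * δ) * J ≤ ρ * J := mul_le_mul_of_nonneg_right hδ1 hJ0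
        have h0 : 0 ≤ δ * (J : ℝ) := by positivity
        have h11 : ((lipE θ K ⌊w * J⌋₊ J + g j + v + c₀ : ℕ) : ℝ) ≤ (J : ℝ) := by
          rcases Nat.lt_or_ge j l with h12 | h12
          · have h7 := hg j h12
            push_cast at h7 hvR ⊢
            linarith
          · have h13 : j = l := by omega
            rw [h13]
            have h14 : ((g l + v : ℕ) : ℝ) ≤ ⌊ρ * J⌋₊ := by
              have : g l + v ≤ ⌊ρ * J⌋₊ := by omega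
              exact_mod_cast this
            push_cast at h14 ⊢
            linarith
        exact_mod_cast h11) hvu (by positivity) (htm hA) (by
        have h7 : (w₀ : ℝ) ≤ w * J := (Nat.cast_le.2 k3).trans (Nat.floor_le (by positivity))
        have hL : 0 < Real.log 2 := Real.log_pos (by norm_num)
        have h8 := mul_le_mul_of_nonneg_right hδ3 hJ0
        have h9 := mul_le_mul_of_nonneg_right h7 hL.le
        have h0 : 0 ≤ δ * (J : ℝ) := by positivity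
        linarith) hu1 h6
    refine fin B _ _ _ _ _ l1 (by linarith) (k1.trans (Nat.le_add_right _ _)) hv1 ?_ l3
    show _ ≤ g l + v - (l + 1) * u + _
    omega

/-- **The thresholds of the chains without the target** are at most `σ`. -/
theorem t1n {k : Fin m} {α σ : ℝ} (hT : T1c S k α σ) (hne : S.Ne)
    (hP : ThrOf (chsys m θ) S P) (hθ : 0 < θ) (hS : TmH S) (hα : α ≤ 1) (hσ : 0 ≤ σ)
    (hσθ : σ + θ < 1) {c : ℕ → Fin m} : ∀ l : ℕ, Set.InjOn c (Set.Iio (l + 1)) →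
    (∀ j ≤ l, c j ≠ k) → ∀ a w : ℝ, 0 < w → w ≤ a → a < α → bet P c l a w ≤ σ := by
  intro l
  induction l using Nat.strong_induction_on with
  | h l ih =>
    intro hc hk a w hw hwa ha
    by_contra hcon
    push Not at hcon
    obtain ⟨ε, K, hε, hB⟩ := clo_lab hP hθ hS hc hα hσ hσθ (fun j hj a w h1 h2 h3 =>
      ih j hj (hc.mono fun x hx => by
        rw [Set.mem_Iio] at hx ⊢
        omega) (fun i hi => hk i (by omega)) a w h1 h2 h3) hw hwa ha hcon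
    have hK1 : (0 : ℝ) < (K : ℝ) + 1 := by positivity
    have h1 := bas_ev (hT K ε hε) (κ := 1 / ((K : ℝ) + 1)) (by positivity)
    obtain ⟨τ, hτ, J₁, h⟩ := hB.and h1
    obtain ⟨J, hJ, F, A, hA⟩ := hne τ hτ J₁
    obtain ⟨⟨B, a₁, P₁, h3, h4, h5, h6, V, z, z', G, h7⟩, h2⟩ := h J hJ F A hA
    have hJ0 : (0 : ℝ) ≤ J := Nat.cast_nonneg J
    refine h2 B h3 ?_ (c l) a₁ P₁ (hk l le_rfl) (h5.trans (Nat.floor_le_floor
      (mul_le_mul_of_nonneg_right ha.le hJ0))) h6 ⟨V, z, z', G, h7.mono ?_ le_rfl le_rfl⟩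
    · rw [div_mul_eq_mul_div, one_mul, div_le_iff₀ hK1]
      have := Pe_nonneg F.isLaw B
      nlinarith
    · intro x hx
      obtain ⟨i, hi, rfl⟩ := Finset.mem_image.1 hx
      rw [Finset.mem_range] at hi
      rw [Finset.mem_erase, Finset.mem_erase]
      refine ⟨fun he => ?_, hk i hi.le, Finset.mem_univ _⟩
      have h8 := hc (show i ∈ Set.Iio (l + 1) from Nat.lt_succ_of_lt hi)
        (show l ∈ Set.Iio (l + 1) from Nat.lt_succ_self l) he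
      omega

end Pool.TOP
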