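import Pool.Agent.H32.Dense.EntX
import Mathlib.Analysis.Calculus.MeanValue
import Mathlib.Analysis.Calculus.Deriv.Polynomial

/-!
# Rows and slopes

* `row_le`: the row of `N` given a part of the coordinates is at most the entropy of the other
  coordinate plus the row of `N` given all coordinates;
* `cnt_slope`: the number of cells in which a polynomial in one variable is near a value and has a
  large derivative.
-/

set_option autoImplicit false

namespace Pool.TOP63

open Finset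
open Pool.Agent.H49.Ent Pool.Agent.H32.Dense

variable {Ω : Type} [Fintype Ω]

/-- **The rows.** `V` is determined by `X`, `U` and `Z`. -/
theorem row_le {q : Ω → ℝ} (hq : ∀ ω, 0 ≤ q ω) {α β γ δ ε ζ : Type} (N : Ω → α) (NQ : Ω → β)
    (X : Ω → γ) (U : Ω → δ) (Z : Ω → ε) (V : Ω → ζ)
    (hV : Det q (fun ω => (X ω, (U ω, Z ω))) V) :
    CH q N (fun ω => (NQ ω, (U ω, Z ω))) ≤
      CH q X (fun ω => (NQ ω, (U ω, Z ω))) + CH q N (fun ω => (NQ ω, V ω)) := by
  refine (CH_le_add hq N X _).trans (add_le_add le_rfl (CH_mono_cond hq ?_))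
  intro ω ω' a b hh
  simp only [Prod.mk.injEq] at hh ⊢
  refine ⟨hh.2.1, hV ω ω' a b ?_⟩
  simp only [Prod.mk.injEq]
  exact ⟨hh.1, hh.2.2⟩

/-- **T1**: the other coordinate has at least the deficit of the row. -/
theorem t1 {q : Ω → ℝ} (hq : ∀ ω, 0 ≤ q ω) {α β γ δ ε ζ : Type} (N : Ω → α) (NQ : Ω → β)
    (X : Ω → γ) (U : Ω → δ) (Z : Ω → ε) (V : Ω → ζ)
    (hV : Det q (fun ω => (X ω, (U ω, Z ω))) V) :
    CH q N (fun ω => (NQ ω, (U ω, Z ω))) - CH q N (fun ω => (NQ ω, V ω)) ≤
      CH q X (fun ω => (U ω, Z ω)) := by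
  have h1 := row_le hq N NQ X U Z V hV
  have h2 : CH q X (fun ω => (NQ ω, (U ω, Z ω))) ≤ CH q X (fun ω => (U ω, Z ω)) :=
    CH_mono_cond hq fun ω ω' _ _ hh => (Prod.ext_iff.mp hh).2
  linarith

/-! ### The count -/

/-- If the derivative is large at `x` and the square of the derivative does not take the value
`ν ^ 2` between `x` and `y`, the polynomial moves. -/
theorem move {f : Polynomial ℝ} {ν x y : ℝ} (hν : 0 < ν) (hxy : x < y)
    (hx : ν < |f.derivative.eval x|)
    (hno : ∀ t, x ≤ t → t ≤ y → (f.derivative.eval t) ^ 2 ≠ ν ^ 2) :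
    ν * (y - x) ≤ |f.eval y - f.eval x| := by
  have hcont : Continuous fun t => (f.derivative.eval t) ^ 2 := (f.derivative.continuous).pow 2
  obtain ⟨c, hc, hc2⟩ := exists_hasDerivAt_eq_slope (fun t => f.eval t)
    (fun t => f.derivative.eval t) hxy f.continuous.continuousOn fun t _ => f.hasDerivAt t
  have h1 : ν < |f.derivative.eval c| := by
    by_contra hcon
    push Not at hcon
    have h2 : (f.derivative.eval c) ^ 2 ≤ ν ^ 2 := by
      rw [← sq_abs (f.derivative.eval c)]
      exact pow_le_pow_left₀ (abs_nonneg _) hcon 2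
    have h3 : ν ^ 2 ≤ (f.derivative.eval x) ^ 2 := by
      rw [← sq_abs (f.derivative.eval x)]
      exact pow_le_pow_left₀ hν.le hx.le 2
    obtain ⟨s, hs, hs2⟩ := intermediate_value_Icc' hc.1.le hcont.continuousOn ⟨h2, h3⟩
    exact hno s hs.1 (hs.2.trans hc.2.le) hs2
  have h4 : (0 : ℝ) < y - x := by linarith
  have h5 : f.eval y - f.eval x = f.derivative.eval c * (y - x) := by
    rw [hc2]
    field_simp
  rw [h5, abs_mul, abs_of_pos h4]
  exact mul_le_mul_of_nonneg_right h1.le h4.le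

/-- The critical polynomial. -/
noncomputable def crit (f : Polynomial ℝ) (ν : ℝ) : Polynomial ℝ :=
  f.derivative ^ 2 - Polynomial.C (ν ^ 2)

theorem crit_eval (f : Polynomial ℝ) (ν t : ℝ) :
    (crit f ν).eval t = (f.derivative.eval t) ^ 2 - ν ^ 2 := by
  unfold crit
  rw [Polynomial.eval_sub, Polynomial.eval_pow, Polynomial.eval_C]

theorem crit_deg {f : Polynomial ℝ} {K : ℕ} (hf : f.natDegree ≤ K) (ν : ℝ) :
    (crit f ν).natDegree ≤ 2 * K := by
  unfold crit
  refine (Polynomial.natDegree_sub_C).le.trans ?_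
  refine (Polynomial.natDegree_pow_le).trans (Nat.mul_le_mul_left _ ?_)
  exact (Polynomial.natDegree_derivative_le f).trans (by omega)

open Classical in
/-- The number of the interval between the critical points. -/
noncomputable def idx (f : Polynomial ℝ) (ν x : ℝ) : ℕ :=
  ((crit f ν).roots.toFinset.filter fun r => r < x).card

theorem idx_le {f : Polynomial ℝ} {K : ℕ} (hf : f.natDegree ≤ K) (ν x : ℝ) :
    idx f ν x ≤ 2 * K := by
  classical
  unfold idx
  refine (Finset.card_filter_le _ _).trans ((Multiset.toFinset_card_le _).trans ?_)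
  exact (Polynomial.card_roots' _).trans (crit_deg hf ν)

/-- Two points of one interval. -/
theorem near_of_idx {f : Polynomial ℝ} {ν δ c x y : ℝ} (hν : 0 < ν)
    (hx : ν < |f.derivative.eval x|) (hy : ν < |f.derivative.eval y|)
    (hxc : |f.eval x - c| ≤ δ) (hyc : |f.eval y - c| ≤ δ) (h : idx f ν x = idx f ν y) :
    |x - y| ≤ 2 * δ / ν := by
  classical
  have key : ∀ x y : ℝ, x < y → ν < |f.derivative.eval x| → ν < |f.derivative.eval y| →
      |f.eval x - c| ≤ δ → |f.eval y - c| ≤ δ → idx f ν x = idx f ν y → y - x ≤ 2 * δ / ν := by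
    intro x y hxy hx hy hxc hyc h
    have h0 : crit f ν ≠ 0 := by
      intro h0
      have h1 := crit_eval f ν x
      rw [h0, Polynomial.eval_zero] at h1
      have h2 : ν ^ 2 < (f.derivative.eval x) ^ 2 := by
        rw [← sq_abs (f.derivative.eval x)]
        exact pow_lt_pow_left₀ hx hν.le (by norm_num)
      linarith
    have hno : ∀ t, x ≤ t → t ≤ y → (f.derivative.eval t) ^ 2 ≠ ν ^ 2 := by
      intro t h1 h2 h3
      have hty : t ≠ y := by
        rintro rfl
        have h4 : ν ^ 2 < (f.derivative.eval t) ^ 2 := by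
          rw [← sq_abs (f.derivative.eval t)]
          exact pow_lt_pow_left₀ hy hν.le (by norm_num)
        linarith
      have hroot : t ∈ (crit f ν).roots.toFinset := by
        rw [Multiset.mem_toFinset, Polynomial.mem_roots h0, Polynomial.IsRoot.def, crit_eval]
        linarith
      have h4 : ((crit f ν).roots.toFinset.filter fun r => r < x) ⊂
          ((crit f ν).roots.toFinset.filter fun r => r < y) := by
        rw [Finset.ssubset_iff_of_subset]
        · refine ⟨t, Finset.mem_filter.2 ⟨hroot, lt_of_le_of_ne h2 hty⟩, fun h5 => ?_⟩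
          exact absurd (Finset.mem_filter.1 h5).2 (not_lt.2 h1)
        · intro r hr
          rw [Finset.mem_filter] at hr ⊢
          exact ⟨hr.1, hr.2.trans hxy⟩
      have h5 := Finset.card_lt_card h4
      unfold idx at h
      omega
    have h6 := move hν hxy hx hno
    have h7 : |f.eval y - f.eval x| ≤ 2 * δ := by
      rw [abs_le] at hxc hyc ⊢
      constructor <;> linarith [hxc.1, hxc.2, hyc.1, hyc.2]
    rw [le_div_iff₀ hν, mul_comm]
    exact h6.trans h7
  rcases lt_trichotomy x y with h1 | h1 | h1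
  · rw [abs_sub_comm, abs_of_pos (by linarith)]
    exact key x y h1 hx hy hxc hyc h
  · rw [h1, sub_self, abs_zero]
    have : 0 ≤ δ := (abs_nonneg _).trans hxc
    positivity
  · rw [abs_of_pos (by linarith)]
    exact key y x h1 hy hx hyc hxc h.symm

/-- **The count.** The polynomial is a function of the context; the samples are near the value `c`
and have a large derivative. -/
theorem cnt_slope {q : Ω → ℝ} (hq : ∀ ω, 0 ≤ q ω) (h1 : ∑ ω, q ω = 1) {T : Type} (W : Ω → T)
    (x : Ω → ℝ) (J K : ℕ) (f : T → Polynomial ℝ) (c : T → ℝ) {δ ν : ℝ} (hν : 0 < ν)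
    (hf : ∀ t, (f t).natDegree ≤ K)
    (hx : ∀ ω, 0 < q ω → |(f (W ω)).eval (x ω) - c (W ω)| ≤ δ)
    (hd : ∀ ω, 0 < q ω → ν < |(f (W ω)).derivative.eval (x ω)|) :
    CH q (fun ω => ⌊(2 : ℝ) ^ J * x ω⌋) W ≤
      Real.log (4 * K + 1) + Real.log (2 * (2 ^ J * (2 * δ / ν) + 1) + 1) := by
  have h2 := CH_le_add hq (fun ω => ⌊(2 : ℝ) ^ J * x ω⌋)
    (fun ω => ((idx (f (W ω)) ν (x ω) : ℕ) : ℤ)) W
  have hsum : ∀ L : ℝ, Ex q (fun _ => L) = L := by
    intro L
    unfold Ex
    rw [← Finset.sum_mul, h1, one_mul]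
  have h3 : CH q (fun ω => ((idx (f (W ω)) ν (x ω) : ℕ) : ℤ)) W ≤ Real.log (4 * K + 1) := by
    have h4 := CH_le_int hq h1 (fun ω => ((idx (f (W ω)) ν (x ω) : ℕ) : ℤ)) W
      (fun _ => ((2 * K : ℕ) : ℝ)) fun ω ω' _ _ hh => by
        have e1 := idx_le (hf (W ω)) ν (x ω)
        have e2 := idx_le (hf (W ω')) ν (x ω')
        have e3 : |((idx (f (W ω)) ν (x ω) : ℕ) : ℤ) - ((idx (f (W ω')) ν (x ω') : ℕ) : ℤ)| ≤
            ((2 * K : ℕ) : ℤ) := by
          rw [abs_le]
          constructor <;> omega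
        rw [← Int.cast_abs]
        exact_mod_cast e3
    rw [hsum] at h4
    refine h4.trans (le_of_eq ?_)
    congr 1
    push_cast
    ring
  have h5 : CH q (fun ω => ⌊(2 : ℝ) ^ J * x ω⌋)
      (fun ω => (((idx (f (W ω)) ν (x ω) : ℕ) : ℤ), W ω)) ≤
      Real.log (2 * (2 ^ J * (2 * δ / ν) + 1) + 1) := by
    have h4 := CH_le_int hq h1 (fun ω => ⌊(2 : ℝ) ^ J * x ω⌋)
      (fun ω => (((idx (f (W ω)) ν (x ω) : ℕ) : ℤ), W ω)) (fun _ => 2 ^ J * (2 * δ / ν) + 1)
      fun ω ω' a b hh => by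
        simp only [Prod.mk.injEq] at hh
        have e1 := near_of_idx hν (hd ω a) (by
          have := hd ω' b
          rwa [← hh.2] at this) (hx ω a) (by
          have := hx ω' b
          rwa [← hh.2] at this) (by
          have := hh.1
          rw [← hh.2] at this
          exact_mod_cast this)
        have e2 : |(2 : ℝ) ^ J * x ω - 2 ^ J * x ω'| ≤ 2 ^ J * (2 * δ / ν) := by
          rw [← mul_sub, abs_mul, abs_of_pos (by positivity : (0 : ℝ) < 2 ^ J)]
          exact mul_le_mul_of_nonneg_left e1 (by positivity)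
        have e3 := Int.floor_le ((2 : ℝ) ^ J * x ω)
        have e4 := Int.lt_floor_add_one ((2 : ℝ) ^ J * x ω)
        have e5 := Int.floor_le ((2 : ℝ) ^ J * x ω')
        have e6 := Int.lt_floor_add_one ((2 : ℝ) ^ J * x ω')
        push_cast
        rw [abs_le] at e2 ⊢
        constructor <;> linarith [e2.1, e2.2]
    rw [hsum] at h4
    exact h4
  linarith

/-- **T2**: the coordinate `x` is determined to `P + s` digits by a label of precision `P` with
derivative at least `2 ^ s`; so the deficit of the row is at most the number of the other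
digits. -/
theorem t2 {q : Ω → ℝ} (hq : ∀ ω, 0 ≤ q ω) (h1 : ∑ ω, q ω = 1) {α β δ ε ζ : Type} (N : Ω → α)
    (NQ : Ω → β) (x : Ω → ℝ) (U : Ω → δ) (Z : Ω → ε) (V : Ω → ζ) (J K P s : ℕ) (hJ : P + s ≤ J)
    (hV : Det q (fun ω => (⌊(2 : ℝ) ^ J * x ω⌋, (U ω, Z ω))) V)
    (f : β × (δ × ε) → Polynomial ℝ) (c : β × (δ × ε) → ℝ) (hf : ∀ t, (f t).natDegree ≤ K)
    (hx : ∀ ω, 0 < q ω → |(f (NQ ω, (U ω, Z ω))).eval (x ω) - c (NQ ω, (U ω, Z ω))| ≤ 1 / 2 ^ P)
    (hd : ∀ ω, 0 < q ω → 2 ^ s < |(f (NQ ω, (U ω, Z ω))).derivative.eval (x ω)|) :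
    CH q N (fun ω => (NQ ω, (U ω, Z ω))) - CH q N (fun ω => (NQ ω, V ω)) ≤
      Real.log (7 * (4 * K + 1)) + ((J : ℝ) - (P + s : ℕ)) * Real.log 2 := by
  have e1 := row_le hq N NQ (fun ω => ⌊(2 : ℝ) ^ J * x ω⌋) U Z V hV
  have e2 := cnt_slope hq h1 (fun ω => (NQ ω, (U ω, Z ω))) x J K f c
    (by positivity : (0 : ℝ) < 2 ^ s) hf hx hd
  have e3 : (2 : ℝ) ^ J * (2 * (1 / 2 ^ P) / 2 ^ s) = 2 * 2 ^ (J - (P + s)) := by
    have h2 : (2 : ℝ) ^ J = 2 ^ (J - (P + s)) * (2 ^ P * 2 ^ s) := by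
      rw [← pow_add, ← pow_add, Nat.sub_add_cancel hJ]
    rw [h2]
    field_simp
  rw [e3] at e2
  have e4 : (1 : ℝ) ≤ 2 ^ (J - (P + s)) := one_le_pow₀ (by norm_num)
  have e5 : Real.log (2 * (2 * 2 ^ (J - (P + s)) + 1) + 1) ≤
      Real.log (7 * 2 ^ (J - (P + s))) := Real.log_le_log (by positivity) (by linarith)
  have e6 : Real.log (7 * 2 ^ (J - (P + s))) =
      Real.log 7 + ((J : ℝ) - (P + s : ℕ)) * Real.log 2 := by
    rw [Real.log_mul (by norm_num) (by positivity), Real.log_pow, Nat.cast_sub hJ]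
  have e7 : Real.log (7 * (4 * K + 1)) = Real.log 7 + Real.log (4 * K + 1) :=
    Real.log_mul (by norm_num) (by positivity)
  rw [e7]
  linarith

end Pool.TOP63
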