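import Pool.Agent.H1.GEN.Low

/-!
# Lower bounds for rows: from classes to families with side information

`zcl_row`: the theorem `Pool.GEN.zcl_low` for the entropy of a function of the position given
another function of the position.
-/

set_option autoImplicit false

namespace Pool.GEN

open Finset Real MvPolynomial
open Pool.Agent.H49.Ent Pool.Agent.H32.Dense Pool.STK Pool.KA Pool.KSAT Pool.K2S Pool.PB Pool.S6C
open Pool.ZCL

variable {n J : ℕ}

/-- **Lower bounds for rows in a family with side information.** -/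
theorem zcl_row {ι : ℕ → ℕ → Type} [∀ i J, Fintype (ι i J)]
    {R : ∀ (i J : ℕ), ι i J → ∀ F : Fam n J, (F.Ω → Prop) → Prop}
    (Good : ∀ J : ℕ, Fam n J → Prop)
    (hcard : ∀ (i : ℕ) (e : ℝ), 0 < e → ∃ J₀ : ℕ, ∀ J ≥ J₀,
      (Fintype.card (ι i J) : ℝ) ≤ Real.exp (e * J))
    (hinv : ∀ (i J : ℕ) (a : ι i J), Inv0 (R i J a))
    (hgl : ∀ (i J : ℕ) (a : ι i J), GluP (R i J a))
    (hsub : ∀ (i J : ℕ) (a : ι i J) (G : Fam n J) (E : G.Ω → Prop)
      (h : IsLaw (cond G.p E True)) (B : G.Ω → Prop), R i J a (G.res E True h) B →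
      R i J a G (fun ω => E ω ∧ B ω))
    (hGd : ∀ (J : ℕ) (G : Fam n J), Good J G → Gd G)
    (hGood : ∀ (J : ℕ) (G : Fam n J), Good J G → ∀ (κ : Type) (k : G.Ω → κ) (v : κ)
      (h : IsLaw (cond G.p k v)), Good J (G.res k v h))
    {κ' κ'' : Type} (y : ℕ → (Fin n → ℤ) → κ') (u : ℕ → (Fin n → ℤ) → κ'') {b : ℝ}
    (hb : 0 ≤ b)
    (hL : ∀ S : FCl n, (∀ (τ : ℝ) (J : ℕ) (F : Fam n J), S.T τ J F → Good J F ∧ Zc F) →
      (∀ i : ℕ, ∃ κ : ℝ, 0 < κ ∧ Bas S.toP (fun J F A => ∀ B : F.Ω → Prop,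
        Real.exp (-(κ * J)) * Pe F.p A ≤ Pe F.p B → ¬ ∃ a : ι i J, R i J a F B)) →
      Clg S (fun J F A => b * J ≤
        CH (Pool.Agent.H49.Ent.cond F.p A True) (fun ω => y J (F.X J ω))
          (fun ω => (u J (F.X J ω), F.W ω)))) :
    ∀ ψ : ℕ → ℝ, (∀ i, 0 < ψ i) → ∀ ε : ℝ, 0 < ε →
    ∃ η : ℝ, 0 < η ∧ ∃ N J₁ : ℕ, ∀ J ≥ J₁, ∀ G : Fam n J, G.Tm (η * J) → Good J G →
    (∃ i ≤ N, ∃ B : G.Ω → Prop, Real.exp (-(3 * ψ i * J)) ≤ Pe G.p B ∧
      ∃ a : ι i J, R i J a G B) ∨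
    (b - ε) * J ≤ CH G.p (fun ω => y J (G.X J ω)) (fun ω => (u J (G.X J ω), G.W ω)) := by
  classical
  intro ψ hψ ε hε
  obtain ⟨Bad, hBd⟩ : ∃ Bad : ℕ → Stat n, Bad = fun i J F B => ∃ a : ι i J, R i J a F B :=
    ⟨_, rfl⟩
  have hBd' : ∀ (i J : ℕ) (F : Fam n J) (B : F.Ω → Prop),
      Bad i J F B ↔ ∃ a : ι i J, R i J a F B := fun i J F B => by rw [hBd]
  have hΦ := hL (zc n (fun J F => Good J F ∧ Zc F) Bad ψ) (fun τ J F h => h.2.2.2.1) fun i => ⟨ψ i / 2, half_pos (hψ i),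
    Bas.mono 0 (zc_bas hψ i) fun J _ F A h B hPB => by
      have h1 := h B hPB
      rwa [hBd'] at h1⟩
  have hB₀ : (0 : ℝ) < 4 * n + 1 := by positivity
  obtain ⟨η₀, hη₀, N, J₁, hcore⟩ := zcl_core (Good := fun J F => Good J F ∧ Zc F)
    (Bad := Bad) hψ
    (fun i J F A h => by
      rw [hBd'] at h ⊢
      obtain ⟨a, ha⟩ := h
      exact ⟨a, hinv i J a F A ha⟩) hΦ hB₀ one_pos
  -- the proportion of the exhausted part
  obtain ⟨δ, hδ⟩ : ∃ δ, δ = min (1 / 2) (ε / (b + 1)) := ⟨_, rfl⟩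
  have hb1 : 0 < b + 1 := by linarith
  have hδ0 : 0 < δ := by
    rw [hδ]
    exact lt_min (by norm_num) (div_pos hε hb1)
  have hδb : δ * b ≤ ε := by
    have h1 : δ ≤ ε / (b + 1) := by
      rw [hδ]
      exact min_le_right _ _
    have h2 : δ * (b + 1) ≤ ε := by rwa [le_div_iff₀ hb1] at h1
    linarith
  have key : ∀ i, ∃ J₀ : ℕ, ∀ J ≥ J₀,
      (Fintype.card (ι i J) : ℝ) ≤ δ * Real.exp (ψ i * J) := by
    intro i
    obtain ⟨J₃, h3⟩ := hcard i (ψ i / 2) (half_pos (hψ i))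
    obtain ⟨J₄, h4⟩ := exists_nat_ge (2 * |Real.log δ| / ψ i)
    refine ⟨max J₃ J₄, fun J hJ => (h3 J ((le_max_left _ _).trans hJ)).trans ?_⟩
    have hJ4 : (J₄ : ℝ) ≤ J := by exact_mod_cast (le_max_right _ _).trans hJ
    have h5 : 2 * |Real.log δ| / ψ i ≤ J := h4.trans hJ4
    rw [div_le_iff₀ (hψ i)] at h5
    have h6 : -Real.log δ ≤ |Real.log δ| := neg_le_abs _
    have e1 : δ = Real.exp (Real.log δ) := (Real.exp_log hδ0).symm
    rw [e1, ← Real.exp_add]
    refine Real.exp_le_exp.2 ?_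
    linarith
  choose J₂ hJ₂ using key
  obtain ⟨J₅, hJ₅⟩ := exists_nat_ge (2 * Real.log 2 / (δ * η₀))
  refine ⟨δ * η₀ / 2, by positivity, N, max (max J₁ 1) (max (∑ i ∈ range (N + 1), J₂ i) J₅),
    fun J hJ G hTm hGd' => ?_⟩
  have hJ1 : J₁ ≤ J := (le_max_left _ _).trans ((le_max_left _ _).trans hJ)
  have hJ0 : 1 ≤ J := (le_max_right _ _).trans ((le_max_left _ _).trans hJ)
  have hJ2 : ∑ i ∈ range (N + 1), J₂ i ≤ J :=
    (le_max_left _ _).trans ((le_max_right _ _).trans hJ)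
  have hJ5 : (J₅ : ℝ) ≤ J := by
    exact_mod_cast (le_max_right _ _).trans ((le_max_right _ _).trans hJ)
  have hp := G.isLaw
  by_cases hcon : ∃ i ≤ N, ∃ B : G.Ω → Prop, Real.exp (-(3 * ψ i * J)) ≤ Pe G.p B ∧
      ∃ a : ι i J, R i J a G B
  · exact Or.inl hcon
  right
  have hJr : (0 : ℝ) ≤ J := Nat.cast_nonneg J
  have hP1 : Pe G.p (fun _ => True) = 1 := Pe_univ hp
  have hex := exh_ge hp (A := fun _ => True) (by rw [hP1]; exact one_pos)
    (fun ω => y J (G.X J ω)) (fun ω => (u J (G.X J ω), G.W ω)) (δ := δ) (E := b * J) (mul_nonneg hb hJr) hδ0.le (by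
    intro E _ hE0 hE
    rw [hP1, mul_one] at hE
    have hElaw := isLaw_cond hp hE0
    obtain ⟨G', hG'⟩ : ∃ G' : Fam n J, G' = G.res E True hElaw := ⟨_, rfl⟩
    have hTm' : (G.res E True hElaw).Tm (η₀ * J) := by
      have h1 := Pool.OVN.res_Tm_of_event hTm hE0
      unfold Fam.Tm at h1 ⊢
      refine le_trans ?_ h1
      have h2 : (δ * η₀ / 2 * J + Real.log 2) / Pe G.p E ≤ η₀ * J := by
        rw [div_le_iff₀ hE0]
        have h3 : 2 * Real.log 2 / (δ * η₀) ≤ J := hJ₅.trans hJ5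
        rw [div_le_iff₀ (by positivity)] at h3
        have h4 : η₀ * J * δ ≤ η₀ * J * Pe G.p E :=
          mul_le_mul_of_nonneg_left hE (mul_nonneg hη₀.le hJr)
        linarith
      linarith
    obtain ⟨κ, k, B, hSel, hPB, hsec⟩ := hcore J hJ1 (G.res E True hElaw) hTm'
      (gd_lines (hGd J _ (hGood J G hGd' _ E True hElaw)) hJ0)
      (fun κ k v h hk => ⟨hGood J _ (hGood J G hGd' _ E True hElaw) κ k v h, by
        intro ω ω' hω hω'
        have e1 := (cond_pos_iff hElaw.nonneg k v ω).1 hω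
        have e2 := (cond_pos_iff hElaw.nonneg k v ω').1 hω'
        exact hk ω ω' (e1.2.trans e2.2.symm)⟩) (by
      intro i hi κ k B hSel hPB hbad
      have hB0 : 0 < Pe (G.res E True hElaw).p B := lt_of_lt_of_le (Real.exp_pos _) hPB
      obtain ⟨a, B', hB', hP, hsec⟩ := sec_pigeon (ι := ι i J) hElaw k B hB0
        (fun a v E' => ∀ hl : IsLaw (cond (G.res E True hElaw).p k v),
          R i J a ((G.res E True hElaw).res k v hl) E') (by
          intro ω hω hBω
          have h1 := hbad ω hω hBω (isLaw_sec hElaw k hω)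
          rw [hBd'] at h1
          obtain ⟨a, ha⟩ := h1
          exact ⟨a, fun hl => ha⟩)
      have hB0' : 0 < Pe (G.res E True hElaw).p B' := by
        by_contra h1
        push Not at h1
        have h2 : ((Fintype.card (ι i J) : ℕ) : ℝ) * Pe (G.res E True hElaw).p B' ≤ 0 :=
          mul_nonpos_of_nonneg_of_nonpos (Nat.cast_nonneg _) h1
        have h3 : Pe (G.res E True hElaw).p B ≤
          (Fintype.card (ι i J) : ℕ) * Pe (G.res E True hElaw).p B' := hP
        linarith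
      have hR := hgl i J a (G.res E True hElaw) κ k B' (hSel.sub hB') hB0'
        fun ω hω hBω hl => hsec ω hω hBω hl
      have hR' := hsub i J a G E hElaw _ hR
      refine hcon ⟨i, hi, _, ?_, a, hR'⟩
      have hJi : J₂ i ≤ J := (Finset.single_le_sum (f := J₂) (fun _ _ => Nat.zero_le _)
        (Finset.mem_range.2 (by omega))).trans hJ2
      have h3 := hJ₂ i J hJi
      have e1 : Pe G.p (fun ω => E ω ∧ B' ω ∧ (G.res E True hElaw).p ω ≠ 0) =
          Pe (G.res E True hElaw).p B' * Pe G.p E := by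
        have h5 : Pe (G.res E True hElaw).p B' = Pe G.p (fun ω => E ω ∧ B' ω) / Pe G.p E :=
          Pe_cond (p := G.p) (A := E) B'
        rw [h5, div_mul_cancel₀ _ hE0.ne']
        rw [← Pe_supp G.p (fun ω => E ω ∧ B' ω)]
        rw [← Pe_supp G.p (fun ω => E ω ∧ B' ω ∧ (G.res E True hElaw).p ω ≠ 0)]
        congr 1
        funext ω
        refine propext ⟨fun h6 => ⟨⟨h6.1.1, h6.1.2.1⟩, h6.2⟩, fun h6 => ⟨⟨h6.1.1, h6.1.2, ?_⟩,
          h6.2⟩⟩
        have h7 : 0 < G.p ω := lt_of_le_of_ne (hp.nonneg ω) (Ne.symm h6.2)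
        exact ((cond_pos_iff hp.nonneg E True ω).2 ⟨h7, eq_true h6.1.1⟩).ne'
      rw [e1]
      have h4 : Real.exp (-(2 * ψ i * J)) ≤
          δ * Real.exp (ψ i * J) * Pe (G.res E True hElaw).p B' :=
        hPB.trans (hP.trans (mul_le_mul_of_nonneg_right h3 (Pe_nonneg hElaw B')))
      have h5 : Real.exp (-(3 * ψ i * J)) =
          Real.exp (-(ψ i * J)) * Real.exp (-(2 * ψ i * J)) := by
        rw [← Real.exp_add]
        congr 1
        ring
      have h6 : Real.exp (-(3 * ψ i * J)) ≤ δ * Pe (G.res E True hElaw).p B' := by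
        rw [h5]
        calc _ ≤ Real.exp (-(ψ i * J)) *
              (δ * Real.exp (ψ i * J) * Pe (G.res E True hElaw).p B') :=
              mul_le_mul_of_nonneg_left h4 (Real.exp_pos _).le
          _ = δ * Pe (G.res E True hElaw).p B' := by
              have h7 : Real.exp (-(ψ i * J)) * Real.exp (ψ i * J) = 1 := by
                rw [← Real.exp_add]
                have : -(ψ i * (J : ℝ)) + ψ i * J = 0 := by ring
                rw [this, Real.exp_zero]
              calc _ = (Real.exp (-(ψ i * J)) * Real.exp (ψ i * J)) *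
                    (δ * Pe (G.res E True hElaw).p B') := by ring
                _ = _ := by rw [h7, one_mul]
      refine h6.trans ?_
      rw [mul_comm]
      exact mul_le_mul_of_nonneg_left hE hB0'.le)
    have hB0 : 0 < Pe (G.res E True hElaw).p B := lt_of_lt_of_le (Real.exp_pos _) hPB
    have h1 : b * J ≤ CH (cond (G.res E True hElaw).p B True)
        (fun ω => y J (G.X J ω)) (fun ω => (u J (G.X J ω), G.W ω)) := by
      refine ch_glue_ge hElaw _ _ k B hB0 ?_ fun ω hω hBω =>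
        hsec ω hω hBω (isLaw_sec hElaw k hω)
      intro ω ω' _ _ h5 h6 h7
      exact hSel.2 ω ω' h5 h6 (Prod.ext_iff.1 (Prod.ext_iff.1 h7).2).2
    have h5 : Pe (G.res E True hElaw).p B = Pe G.p (fun ω => E ω ∧ B ω) / Pe G.p E :=
      Pe_cond (p := G.p) (A := E) B
    have h6 : 0 < Pe G.p (fun ω => E ω ∧ B ω) := by
      rw [h5] at hB0
      by_contra hc
      push Not at hc
      have : Pe G.p (fun ω => E ω ∧ B ω) / Pe G.p E ≤ 0 :=
        div_nonpos_of_nonpos_of_nonneg hc hE0.le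
      linarith
    refine ⟨fun ω => E ω ∧ B ω, fun ω h => h.1, h6, ?_⟩
    have h7 : cond G.p (fun ω => E ω ∧ B ω) True =
        cond (cond G.p E True) (fun ω => E ω ∧ B ω) True :=
      (Piece.cond_cond (fun ω h => h.1) hE0.ne').symm
    have h8 : cond (cond G.p E True) (fun ω => E ω ∧ B ω) True =
        cond (cond G.p E True) B True := by
      have h9 : ∀ ω, cond G.p E True ω ≠ 0 → E ω := by
        intro ω hω
        unfold Pool.Agent.H49.Ent.cond at hω
        by_contra hc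
        exact hω (if_neg (fun h => hc (of_eq_true h)))
      rw [← cond_supp (cond G.p E True) B, ← cond_supp (cond G.p E True) (fun ω => E ω ∧ B ω)]
      congr 1
      funext ω
      exact propext ⟨fun h => ⟨h.1.2, h.2⟩, fun h => ⟨⟨h9 ω h.2, h.1⟩, h.2⟩⟩
    rw [h7, h8]
    exact h1)
  rw [cond_univ hp] at hex
  refine le_trans ?_ hex
  have h1 : (1 - δ) * (b * J) = b * J - δ * b * J := by ring
  have h2 : δ * b * J ≤ ε * J := mul_le_mul_of_nonneg_right hδb hJr
  rw [h1]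
  linarith

end Pool.GEN
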